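import Mathlib

set_option autoImplicit false

open Set Topology

namespace Pool.Agent.H866Z.SM

section
variable {C : Type*} [CStarAlgebra C]

/-- a partial isometry absorbs its source projection -/
theorem pi_mul_source {v p : C} (hp : IsStarProjection p) (h : star v * v = p) : v * p = v := by
  have hpp : p * p = p := hp.isIdempotentElem.eq
  have hs : star p = p := hp.isSelfAdjoint.star_eq
  have : star (v - v * p) * (v - v * p) = 0 := by
    have e : star (v - v * p) * (v - v * p)
        = star v * v - (star v * v) * p - p * (star v * v) + p * (star v * v) * p := by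
      simp only [star_sub, star_mul, hs]
      noncomm_ring
    rw [e, h, hpp, hpp]
    abel
  have h0 := (CStarRing.star_mul_self_eq_zero_iff _).1 this
  exact (sub_eq_zero.1 h0).symm

theorem target_mul_pi {v q : C} (hq : IsStarProjection q) (h : v * star v = q) : q * v = v := by
  have := pi_mul_source (v := star v) hq (by simpa using h)
  have h2 := congrArg star this
  simpa [hq.isSelfAdjoint.star_eq] using h2

theorem isStarProjection_mul_star {v p : C} (hp : IsStarProjection p) (h : star v * v = p) :
    IsStarProjection (v * star v) := by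
  refine ⟨?_, IsSelfAdjoint.mul_star_self v⟩
  show v * star v * (v * star v) = v * star v
  calc v * star v * (v * star v) = (v * (star v * v)) * star v := by noncomm_ring
    _ = v * star v := by rw [h, pi_mul_source hp h]

theorem norm_le_one_of_pi {v p : C} (hp : IsStarProjection p) (h : star v * v = p) : ‖v‖ ≤ 1 := by
  have h1 : ‖v‖ * ‖v‖ ≤ 1 := by
    rw [← CStarRing.norm_star_mul_self, h]
    exact hp.norm_le
  nlinarith [norm_nonneg v]

/-- close projections are unitarily equivalent -/
theorem exists_unitary_of_close {p q : C} (hp : IsStarProjection p) (hq : IsStarProjection q)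
    (h : ‖p - q‖ < 1) : ∃ u ∈ unitary C, u * p * star u = q := by
  nontriviality C
  have hpp : p * p = p := hp.isIdempotentElem.eq
  have hqq : q * q = q := hq.isIdempotentElem.eq
  have hps : star p = p := hp.isSelfAdjoint.star_eq
  have hqs : star q = q := hq.isSelfAdjoint.star_eq
  set z : C := q * p + (1 - q) * (1 - p) with hz
  have hzp : z * p = q * z := by
    have e1 : z * p = q * (p * p) + (1 - q) * (p - p * p) := by rw [hz]; noncomm_ring
    have e2 : q * z = (q * q) * p + (q - q * q) * (1 - p) := by rw [hz]; noncomm_ring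
    rw [e1, e2, hpp, hqq]
    simp
  have hsym : (q + q - 1) ∈ unitary C := by
    have e : (q + q - 1) * (q + q - 1) = 1 := by
      have : (q + q - 1) * (q + q - 1) = q * q + q * q + q * q + q * q - q - q - q - q + 1 := by
        noncomm_ring
      rw [this, hqq]
      abel
    have hs : star (q + q - 1) = q + q - 1 := by simp [hqs]
    exact ⟨by rw [hs, e], by rw [hs, e]⟩
  have hz1 : 1 - z = -((q + q - 1) * (p - q)) := by
    have : (q + q - 1) * (p - q) = q * p + q * p - q * q - q * q - p + q := by noncomm_ring
    rw [this, hqq, hz]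
    noncomm_ring
  have hn : ‖1 - z‖ < 1 := by
    rw [hz1, norm_neg, CStarRing.norm_mem_unitary_mul _ hsym]
    exact h
  have hzu : IsUnit z := by
    have := (Units.oneSub (1 - z) hn).isUnit
    simpa using this
  set c : C := star z * z with hc
  have hcsa : IsSelfAdjoint c := IsSelfAdjoint.star_mul_self z
  have hcu : IsUnit c := hzu.star.mul hzu
  have hcp : Commute c p := by
    have h1 : star z * q = p * star z := by
      have := congrArg star hzp
      simpa [hps, hqs] using this.symm
    show c * p = p * c
    rw [hc, mul_assoc, hzp, ← mul_assoc, h1, mul_assoc]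
  have hpos : ∀ x ∈ spectrum ℝ c, 0 < x := by
    intro x hx
    have h1 : 0 ≤ x := spectrum_star_mul_self_nonneg x hx
    rcases h1.lt_or_eq with h2 | h2
    · exact h2
    · subst h2
      exact absurd hx ((spectrum.zero_notMem_iff ℝ).2 hcu)
  have hcont : ContinuousOn (fun x : ℝ => (Real.sqrt x)⁻¹) (spectrum ℝ c) :=
    Real.continuous_sqrt.continuousOn.inv₀ fun x hx => (Real.sqrt_pos.2 (hpos x hx)).ne'
  set r : C := cfc (fun x : ℝ => (Real.sqrt x)⁻¹) c with hr
  have hrs : star r = r := (cfc_predicate (fun x : ℝ => (Real.sqrt x)⁻¹) c : IsSelfAdjoint _).star_eq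
  have hrp : Commute r p := hcp.cfc_real _
  have hrcr : r * c * r = 1 := by
    have e : r * c * r = cfc (fun x : ℝ => (Real.sqrt x)⁻¹ * x * (Real.sqrt x)⁻¹) c := by
      rw [cfc_mul (fun x : ℝ => (Real.sqrt x)⁻¹ * x) (fun x : ℝ => (Real.sqrt x)⁻¹) c
          (hcont.mul continuousOn_id) hcont,
        cfc_mul (fun x : ℝ => (Real.sqrt x)⁻¹) (fun x : ℝ => x) c hcont continuousOn_id,
        cfc_id' ℝ c hcsa]
    rw [e, ← cfc_one ℝ c hcsa]
    refine cfc_congr fun x hx => ?_
    have h1 := Real.sqrt_pos.2 (hpos x hx)
    have h2 := Real.mul_self_sqrt (hpos x hx).le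
    simp only [Pi.one_apply]
    field_simp
    nlinarith
  have hru : IsUnit r := by
    have h1 : r * (c * r) = 1 := by rw [← mul_assoc, hrcr]
    have h2 : (r * c) * r = 1 := hrcr
    exact ⟨⟨r, c * r, h1, by
      calc c * r * r = (r * c * r) * (c * r * r) := by rw [hrcr, one_mul]
        _ = (r * c) * (r * (c * r)) * r := by noncomm_ring
        _ = 1 := by rw [h1, mul_one, h2]⟩, rfl⟩
  have hu1 : star (z * r) * (z * r) = 1 := by
    rw [star_mul, hrs, ← hrcr, hc]
    noncomm_ring
  have hu2 : (z * r) * star (z * r) = 1 := by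
    obtain ⟨w, hw⟩ := hzu.mul hru
    have : star (z * r) = (w⁻¹ : Cˣ) := by
      rw [← hw] at hu1 ⊢
      exact (Units.inv_eq_of_mul_eq_one_left hu1).symm
    rw [this, ← hw]
    simp
  refine ⟨z * r, ⟨hu1, hu2⟩, ?_⟩
  calc z * r * p * star (z * r) = z * (r * p) * star (z * r) := by noncomm_ring
    _ = (z * p) * r * star (z * r) := by rw [hrp.eq]; noncomm_ring
    _ = q * ((z * r) * star (z * r)) := by rw [hzp]; noncomm_ring
    _ = q := by rw [hu2, mul_one]

open unitInterval in
/-- a path of projections is unitarily trivial -/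
theorem exists_unitary_path (P : C(I, C)) (hP : ∀ t, IsStarProjection (P t)) :
    ∃ U : C(I, C), (∀ t, U t ∈ unitary C) ∧ ∀ t, U t * P 0 * star (U t) = P t := by
  let m : C(I × I, C) := P.comp ⟨fun x => x.1 * x.2, by
    refine Continuous.subtype_mk ?_ _
    fun_prop⟩
  let Hs : C(I, C(I, C)) := m.curry
  have hH : ∀ s, IsStarProjection (Hs s) := by
    intro s
    refine ⟨?_, ?_⟩
    · ext t
      exact (hP (s * t)).isIdempotentElem.eq
    · ext t
      exact (hP (s * t)).isSelfAdjoint.star_eq
  let R : I → I → Prop := fun a b => ∃ u ∈ unitary C(I, C), u * Hs a * star u = Hs b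
  have hR : R 0 1 := by
    refine isPreconnected_univ.induction₂' R (fun x _ => ?_) ?_ (mem_univ _) (mem_univ _)
    · have h1 : ∀ᶠ y in 𝓝 x, Hs y ∈ Metric.ball (Hs x) 1 :=
        Hs.continuous.continuousAt.eventually (Metric.ball_mem_nhds _ one_pos)
      refine (h1.filter_mono nhdsWithin_le_nhds).mono fun y hy => ⟨?_, ?_⟩
      · refine exists_unitary_of_close (hH x) (hH y) ?_
        rw [norm_sub_rev]
        simpa [dist_eq_norm] using hy
      · refine exists_unitary_of_close (hH y) (hH x) ?_
        simpa [dist_eq_norm] using hy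
    · rintro x y w - - - ⟨u, hu, e1⟩ ⟨v, hv, e2⟩
      refine ⟨v * u, mul_mem hv hu, ?_⟩
      have e3 : star (v * u) = star u * star v := by
        ext t
        simp
      rw [← e2, ← e1, e3]
      noncomm_ring
  obtain ⟨u, hu, e⟩ := hR
  refine ⟨u, fun t => ⟨?_, ?_⟩, fun t => ?_⟩
  · exact congrArg (fun f : C(I, C) => f t) hu.1
  · exact congrArg (fun f : C(I, C) => f t) hu.2
  · have := congrArg (fun f : C(I, C) => f t) e
    simpa [Hs, m] using this

/-- an algebraic unitary is joined to the identity -/
theorem joined_of_algebraic (u : unitary C) (f : Polynomial ℂ) (hf : f ≠ 0)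
    (hu : Polynomial.aeval (u : C) f = 0) : Joined (1 : unitary C) u := by
  rcases subsingleton_or_nontrivial C with hC | hC
  · rw [show u = 1 from Subtype.ext (Subsingleton.elim _ _)]
  have hfin : (spectrum ℂ (u : C)).Finite := by
    refine (f.rootSet_finite ℂ).subset fun z hz => ?_
    have h1 := spectrum.subset_polynomial_aeval (u : C) f ⟨z, hz, rfl⟩
    rw [hu, spectrum.zero_eq] at h1
    rw [Polynomial.mem_rootSet]
    exact ⟨hf, by simpa using h1⟩
  obtain ⟨θ, hθ⟩ : ∃ θ : ℝ, -Complex.exp (θ * Complex.I) ∉ spectrum ℂ (u : C) := by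
    by_contra hcon
    push Not at hcon
    have hinj : InjOn (fun θ : ℝ => -Complex.exp (θ * Complex.I)) (Ioo 0 1) := by
      intro a ha b hb hab
      have h1 : Complex.exp (a * Complex.I) = Complex.exp (b * Complex.I) := neg_injective hab
      have h2 := congrArg Complex.re h1
      rw [Complex.exp_ofReal_mul_I_re, Complex.exp_ofReal_mul_I_re] at h2
      have hpi := Real.pi_gt_three
      exact Real.injOn_cos ⟨ha.1.le, by linarith [ha.2]⟩ ⟨hb.1.le, by linarith [hb.2]⟩ h2
    exact (Set.Ioo_infinite (zero_lt_one' ℝ)) (Set.Finite.of_finite_image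
      (hfin.subset (by rintro _ ⟨θ, _, rfl⟩; exact hcon θ)) hinj)
  have hsc : ∀ t : ℝ, Complex.exp (t * Complex.I) • (1 : C) ∈ unitary C := by
    intro t
    have h1 : star (Complex.exp (t * Complex.I)) * Complex.exp (t * Complex.I) = 1 := by
      rw [Complex.star_def, mul_comm, Complex.mul_conj, Complex.normSq_eq_norm_sq,
        Complex.norm_exp_ofReal_mul_I]
      simp
    constructor
    · rw [star_smul, star_one, smul_mul_smul_comm, h1]; simp
    · rw [star_smul, star_one, smul_mul_smul_comm, mul_comm (Complex.exp _), h1]; simp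
  let sc : ℝ → unitary C := fun t => ⟨_, hsc t⟩
  have hscc : Continuous sc := by
    refine Continuous.subtype_mk ?_ _
    fun_prop
  have h1 : Joined (1 : unitary C) (sc θ) := by
    have : sc 0 = 1 := by
      ext
      simp [sc]
    rw [← this]
    exact (PathConnectedSpace.joined (0 : ℝ) θ).map hscc
  refine h1.trans (Unitary.joined _ _ ?_)
  rw [Unitary.norm_sub_eq, Unitary.norm_sub_one_lt_two_iff (u * star (sc θ)).2]
  intro hmem
  apply hθ
  have hne : Complex.exp (θ * Complex.I) ≠ 0 := Complex.exp_ne_zero _
  have e : (u : C) = Complex.exp (θ * Complex.I) • ((u * star (sc θ) : unitary C) : C) := by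
    have h2 : ((star (sc θ) : unitary C) : C) * (sc θ : C) = 1 := (sc θ).2.1
    calc (u : C) = u * (((star (sc θ) : unitary C) : C) * (sc θ : C)) := by rw [h2, mul_one]
      _ = _ := by
        simp only [sc, Submonoid.coe_mul, ← mul_assoc]
        rw [mul_smul_comm, mul_one]
  rw [e]
  have := (spectrum.smul_mem_smul_iff (r := Units.mk0 _ hne)).2 hmem
  simpa [Units.smul_def] using this

open unitInterval in
/-- partial isometries between the same projections with finite-dimensional corner are joined -/
theorem exists_pi_path_const {p q c0 c1 : C} (hp : IsStarProjection p) (hq : IsStarProjection q)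
    (hfin : FiniteDimensional ℂ (LinearMap.range ((LinearMap.mulLeft ℂ p).comp
      (LinearMap.mulRight ℂ p))))
    (h0 : star c0 * c0 = p) (h0' : c0 * star c0 = q) (h1 : star c1 * c1 = p)
    (h1' : c1 * star c1 = q) :
    ∃ c : C(I, C), (∀ t, star (c t) * c t = p ∧ c t * star (c t) = q) ∧ c 0 = c0 ∧ c 1 = c1 := by
  have hpp : p * p = p := hp.isIdempotentElem.eq
  have hps : star p = p := hp.isSelfAdjoint.star_eq
  have a0 : c0 * p = c0 := pi_mul_source hp h0
  have a1 : c1 * p = c1 := pi_mul_source hp h1
  have b0 : q * c0 = c0 := target_mul_pi hq h0'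
  have b1 : q * c1 = c1 := target_mul_pi hq h1'
  have a0' : p * star c0 = star c0 := by simpa [hps] using congrArg star a0
  have a1' : p * star c1 = star c1 := by simpa [hps] using congrArg star a1
  set w : C := star c0 * c1 with hw
  have hw1 : w * p = w := by rw [hw, mul_assoc, a1]
  have hw2 : p * w = w := by rw [hw, ← mul_assoc, a0']
  have hw1' : p * star w = star w := by simpa [hps] using congrArg star hw1
  have hw2' : star w * p = star w := by simpa [hps] using congrArg star hw2
  have hw3 : star w * w = p := by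
    calc star w * w = star c1 * ((c0 * star c0) * c1) := by rw [hw]; simp [mul_assoc]
      _ = p := by rw [h0', b1, h1]
  have hw4 : w * star w = p := by
    calc w * star w = star c0 * ((c1 * star c1) * c0) := by rw [hw]; simp [mul_assoc]
      _ = p := by rw [h1', b0, h0]
  set y : C := w + (1 - p) with hy
  have hyu : y ∈ unitary C := by
    constructor
    · have : star y * y = star w * w + (star w - star w * p) + (w - p * w) + (1 - p - p + p * p) := by
        simp only [hy, star_add, star_sub, star_one, hps]
        noncomm_ring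
      rw [this, hw3, hw2', hw2, hpp]
      abel
    · have : y * star y = w * star w + (w - w * p) + (star w - p * star w) + (1 - p - p + p * p) := by
        simp only [hy, star_add, star_sub, star_one, hps]
        noncomm_ring
      rw [this, hw4, hw1', hw1, hpp]
      abel
  have hyp : p * y = y * p := by
    have e1 : p * y = p * w + (p - p * p) := by rw [hy]; noncomm_ring
    have e2 : y * p = w * p + (p - p * p) := by rw [hy]; noncomm_ring
    rw [e1, e2, hw1, hw2]
  let Z : StarSubalgebra ℂ C := StarSubalgebra.centralizer ℂ {p}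
  have hZ : IsClosed (Z : Set C) := Set.isClosed_centralizer _
  have hmemZ : ∀ x : C, x ∈ Z ↔ p * x = x * p := by
    intro x
    simp [Z, StarSubalgebra.mem_centralizer_iff, hps]
  let _ : CStarAlgebra Z := StarSubalgebra.cstarAlgebra Z (h_closed := hZ)
  let yZ : Z := ⟨y, (hmemZ y).2 hyp⟩
  have hyZ : yZ ∈ unitary Z := ⟨Subtype.ext hyu.1, Subtype.ext hyu.2⟩
  obtain ⟨f, hf, hfy⟩ : ∃ f : Polynomial ℂ, f ≠ 0 ∧ Polynomial.aeval y f * p = 0 := by
    let L : Polynomial ℂ →ₗ[ℂ] C := ((LinearMap.mulLeft ℂ p).comp (LinearMap.mulRight ℂ p)).comp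
      (Polynomial.aeval y).toLinearMap
    have hL : FiniteDimensional ℂ (LinearMap.range L) :=
      Submodule.finiteDimensional_of_le (LinearMap.range_comp_le_range _ _)
    by_contra hcon
    push Not at hcon
    have hinj : Function.Injective L := by
      rw [← LinearMap.ker_eq_bot, LinearMap.ker_eq_bot']
      intro f hf
      by_contra hf0
      apply hcon f hf0
      have hc : p * Polynomial.aeval y f = Polynomial.aeval y f * p := by
        have : Polynomial.aeval y f ∈ Z := by
          have := (Polynomial.aeval yZ f).2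
          rwa [Polynomial.aeval_subalgebra_coe f Z.toSubalgebra yZ] at this
        exact (hmemZ _).1 this
      have hf' : p * (Polynomial.aeval y f * p) = 0 := hf
      rw [← mul_assoc, hc, mul_assoc, hpp] at hf'
      exact hf'
    have : FiniteDimensional ℂ (Polynomial ℂ) :=
      (LinearEquiv.ofInjective L hinj).symm.finiteDimensional
    exact Polynomial.not_finite this
  have hj : Joined (1 : unitary Z) ⟨yZ, hyZ⟩ := by
    refine joined_of_algebraic _ (f * (Polynomial.X - Polynomial.C 1))
      (mul_ne_zero hf (Polynomial.X_sub_C_ne_zero 1)) (Subtype.ext ?_)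
    have := Polynomial.aeval_subalgebra_coe (f * (Polynomial.X - Polynomial.C 1)) Z.toSubalgebra yZ
    refine this.trans ?_
    have e : y - 1 = p * (y - 1) := by
      have e1 : p * (y - 1) = p * w - p * p := by rw [hy]; noncomm_ring
      rw [e1, hw2, hpp, hy]
      abel
    show Polynomial.aeval y (f * (Polynomial.X - Polynomial.C 1)) = 0
    rw [map_mul, map_sub, Polynomial.aeval_X, Polynomial.aeval_C, map_one, e, ← mul_assoc, hfy,
      zero_mul]
  obtain ⟨γ⟩ := hj
  refine ⟨⟨fun t => c0 * ((γ t : Z) : C), by fun_prop⟩, fun t => ⟨?_, ?_⟩, ?_, ?_⟩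
  · have g1 : star ((γ t : Z) : C) * ((γ t : Z) : C) = 1 := congrArg Subtype.val (γ t).2.1
    have g2 : p * ((γ t : Z) : C) = ((γ t : Z) : C) * p := (hmemZ _).1 (γ t : Z).2
    show star (c0 * ((γ t : Z) : C)) * (c0 * ((γ t : Z) : C)) = p
    calc _ = star ((γ t : Z) : C) * ((star c0 * c0) * ((γ t : Z) : C)) := by simp [mul_assoc]
      _ = p := by rw [h0, g2, ← mul_assoc, g1, one_mul]
  · have g1 : ((γ t : Z) : C) * star ((γ t : Z) : C) = 1 := congrArg Subtype.val (γ t).2.2
    show (c0 * ((γ t : Z) : C)) * star (c0 * ((γ t : Z) : C)) = q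
    calc _ = c0 * (((γ t : Z) : C) * star ((γ t : Z) : C)) * star c0 := by simp [mul_assoc]
      _ = q := by rw [g1, mul_one, h0']
  · simp
  · show c0 * ((γ 1 : Z) : C) = c1
    rw [γ.target]
    show c0 * y = c1
    have : c0 * y = (c0 * star c0) * c1 + (c0 - c0 * p) := by rw [hy, hw]; noncomm_ring
    rw [this, h0', b1, a0]
    simp

open unitInterval in
/-- path lifting for partial isometries -/
theorem exists_pi_path (P Q : C(I, C)) (hP : ∀ t, IsStarProjection (P t))
    (hQ : ∀ t, IsStarProjection (Q t))
    (hfin : FiniteDimensional ℂ (LinearMap.range ((LinearMap.mulLeft ℂ (P 0)).comp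
      (LinearMap.mulRight ℂ (P 0))))) {v0 v1 : C}
    (h0 : star v0 * v0 = P 0) (h0' : v0 * star v0 = Q 0) (h1 : star v1 * v1 = P 1)
    (h1' : v1 * star v1 = Q 1) :
    ∃ v : C(I, C), (∀ t, star (v t) * v t = P t ∧ v t * star (v t) = Q t) ∧ v 0 = v0 ∧ v 1 = v1 := by
  obtain ⟨U, hU, eU⟩ := exists_unitary_path P hP
  obtain ⟨W, hW, eW⟩ := exists_unitary_path Q hQ
  have key : ∀ (t : I) (v : C), star v * v = P t → v * star v = Q t →
      star (star (W t) * v * U t) * (star (W t) * v * U t) = P 0 ∧
      (star (W t) * v * U t) * star (star (W t) * v * U t) = Q 0 := by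
    intro t v e1 e2
    constructor
    · calc _ = star (U t) * (star v * (W t * star (W t)) * v) * U t := by simp [mul_assoc]
        _ = (star (U t) * U t) * P 0 * (star (U t) * U t) := by
          rw [(hW t).2, mul_one, e1, ← eU t]; noncomm_ring
        _ = P 0 := by rw [(hU t).1]; simp
    · calc _ = star (W t) * (v * (U t * star (U t)) * star v) * W t := by simp [mul_assoc]
        _ = (star (W t) * W t) * Q 0 * (star (W t) * W t) := by
          rw [(hU t).2, mul_one, e2, ← eW t]; noncomm_ring
        _ = Q 0 := by rw [(hW t).1]; simp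
  obtain ⟨c, hc, c0, c1⟩ := exists_pi_path_const (hP 0) (hQ 0) hfin (key 0 v0 h0 h0').1
    (key 0 v0 h0 h0').2 (key 1 v1 h1 h1').1 (key 1 v1 h1 h1').2
  have back : ∀ (t : I) (v : C), W t * (star (W t) * v * U t) * star (U t) = v := by
    intro t v
    calc _ = (W t * star (W t)) * v * (U t * star (U t)) := by noncomm_ring
      _ = v := by rw [(hW t).2, (hU t).2]; simp
  refine ⟨⟨fun t => W t * c t * star (U t), by fun_prop⟩, fun t => ⟨?_, ?_⟩, ?_, ?_⟩
  · show star (W t * c t * star (U t)) * (W t * c t * star (U t)) = P t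
    calc _ = U t * (star (c t) * (star (W t) * W t) * c t) * star (U t) := by simp [mul_assoc]
      _ = P t := by rw [(hW t).1, mul_one, (hc t).1, eU t]
  · show (W t * c t * star (U t)) * star (W t * c t * star (U t)) = Q t
    calc _ = W t * (c t * (star (U t) * U t) * star (c t)) * star (W t) := by simp [mul_assoc]
      _ = Q t := by rw [(hU t).1, mul_one, (hc t).2, eW t]
  · show W 0 * c 0 * star (U 0) = v0
    rw [c0, back]
  · show W 1 * c 1 * star (U 1) = v1
    rw [c1, back]

end

end Pool.Agent.H866Z.SM
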