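import Mathlib
import Pool.Agent.H866Z.SM.CStar

set_option autoImplicit false

open Set Topology

namespace Pool.Agent.H866Z.SM

/-- Abstract interface: a unital C*-algebra with an ideal of compact elements, a rank function
and a sequence of isometries with orthogonal ranges. -/
structure Model (B : Type) [CStarAlgebra B] where
  K : Set B
  s : ℕ → B
  rk : B → ℕ
  closed : IsClosed K
  zero_mem : (0 : B) ∈ K
  add_mem : ∀ {x y : B}, x ∈ K → y ∈ K → x + y ∈ K
  star_mem : ∀ {x : B}, x ∈ K → star x ∈ K
  mul_left : ∀ (a : B) {x : B}, x ∈ K → a * x ∈ K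
  orth : ∀ i j, star (s i) * s j = if i = j then 1 else 0
  rk_eq : ∀ {p q v : B}, IsStarProjection p → IsStarProjection q → p ∈ K →
    star v * v = p → v * star v = q → rk p = rk q
  exists_pi : ∀ {p q : B}, IsStarProjection p → IsStarProjection q → p ∈ K → q ∈ K →
    rk p = rk q → ∃ v, star v * v = p ∧ v * star v = q
  rk_add : ∀ {p q : B}, IsStarProjection p → IsStarProjection q → p ∈ K → q ∈ K →
    p * q = 0 → rk (p + q) = rk p + rk q
  exists_one : ∃ p ∈ K, IsStarProjection p ∧ rk p = 1
  fin : ∀ {p : B}, IsStarProjection p → p ∈ K →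
    FiniteDimensional ℂ (LinearMap.range ((LinearMap.mulLeft ℂ p).comp (LinearMap.mulRight ℂ p)))

section hilbert

variable {H : Type} [NormedAddCommGroup H] [InnerProductSpace ℂ H] [CompleteSpace H]

theorem fd_of_compact {p : H →L[ℂ] H} (hp : IsStarProjection p) (hc : IsCompactOperator p) :
    FiniteDimensional ℂ p.range := by
  have hpp : ∀ x, p (p x) = p x := fun x => congrArg (fun T : H →L[ℂ] H => T x) hp.isIdempotentElem.eq
  have hcl : IsClosed (p.range : Set H) := by
    have : (p.range : Set H) = {x | p x = x} := by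
      ext x
      constructor
      · rintro ⟨y, rfl⟩
        exact hpp y
      · intro hx
        exact ⟨x, hx⟩
    rw [this]
    exact isClosed_eq p.continuous continuous_id
  have h1 := hc.codRestrict (V := p.range) (fun x => ⟨x, rfl⟩) hcl
  have h2 := h1.comp_clm p.range.subtypeL
  apply FiniteDimensional.of_isCompactOperator_id
  have e : (id : p.range → p.range) =
      (codRestrict p (p.range : Set H) (fun x => ⟨x, rfl⟩) ∘ p.range.subtypeL) := by
    funext x
    obtain ⟨_, y, rfl⟩ := x
    exact Subtype.ext (hpp y).symm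
  rw [e]
  exact h2

theorem finrank_le_of_pi {p q v : H →L[ℂ] H} (hp : IsStarProjection p)
    [FiniteDimensional ℂ p.range] (h1 : star v * v = p) (h2 : v * star v = q) :
    FiniteDimensional ℂ q.range ∧ Module.finrank ℂ q.range ≤ Module.finrank ℂ p.range := by
  have a := pi_mul_source hp h1
  have hle : q.range ≤ p.range.map (v : H →ₗ[ℂ] H) := by
    rintro _ ⟨x, rfl⟩
    refine ⟨p (star v x), ⟨_, rfl⟩, ?_⟩
    have : v * p * star v = q := by rw [a, h2]
    exact congrArg (fun T : H →L[ℂ] H => T x) this
  exact ⟨Submodule.finiteDimensional_of_le hle,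
    (Submodule.finrank_mono hle).trans (Submodule.finrank_map_le _ _)⟩

theorem exists_pi_of_finrank {p q : H →L[ℂ] H} (hp : IsStarProjection p) (hq : IsStarProjection q)
    [FiniteDimensional ℂ p.range] [FiniteDimensional ℂ q.range]
    (h : Module.finrank ℂ p.range = Module.finrank ℂ q.range) :
    ∃ v : H →L[ℂ] H, star v * v = p ∧ v * star v = q := by
  let e : p.range ≃ₗᵢ[ℂ] q.range := (stdOrthonormalBasis ℂ p.range).repr.trans
    ((LinearIsometryEquiv.piLpCongrLeft 2 ℂ ℂ (finCongr h)).trans
      (stdOrthonormalBasis ℂ q.range).repr.symm)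
  obtain ⟨_, hp'⟩ := isStarProjection_iff_eq_starProjection_range.1 hp
  obtain ⟨_, hq'⟩ := isStarProjection_iff_eq_starProjection_range.1 hq
  refine ⟨q.range.subtypeL ∘L (e : p.range →L[ℂ] q.range) ∘L p.range.orthogonalProjectionOnto,
    ?_, ?_⟩
  · rw [ContinuousLinearMap.star_eq_adjoint]
    simp only [ContinuousLinearMap.adjoint_comp, Submodule.adjoint_subtypeL,
      Submodule.adjoint_orthogonalProjectionOnto, LinearIsometryEquiv.adjoint_eq_symm]
    ext x
    conv_rhs => rw [hp']
    simp
  · rw [ContinuousLinearMap.star_eq_adjoint]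
    simp only [ContinuousLinearMap.adjoint_comp, Submodule.adjoint_subtypeL,
      Submodule.adjoint_orthogonalProjectionOnto, LinearIsometryEquiv.adjoint_eq_symm]
    ext x
    conv_rhs => rw [hq']
    simp

theorem finrank_add_of_orth {p q : H →L[ℂ] H} (hp : IsStarProjection p) (hq : IsStarProjection q)
    [FiniteDimensional ℂ p.range] [FiniteDimensional ℂ q.range] (h : p * q = 0) :
    Module.finrank ℂ (p + q).range = Module.finrank ℂ p.range + Module.finrank ℂ q.range := by
  have h' : q * p = 0 := by
    simpa [hp.isSelfAdjoint.star_eq, hq.isSelfAdjoint.star_eq] using congrArg star h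
  have hpp : ∀ x, p (p x) = p x := fun x => congrArg (fun T : H →L[ℂ] H => T x) hp.isIdempotentElem.eq
  have hqq : ∀ x, q (q x) = q x := fun x => congrArg (fun T : H →L[ℂ] H => T x) hq.isIdempotentElem.eq
  have hpq : ∀ x, p (q x) = 0 := fun x => congrArg (fun T : H →L[ℂ] H => T x) h
  have hqp : ∀ x, q (p x) = 0 := fun x => congrArg (fun T : H →L[ℂ] H => T x) h'
  have e1 : (p + q).range = p.range ⊔ q.range := by
    apply le_antisymm
    · rintro _ ⟨x, rfl⟩
      exact Submodule.add_mem_sup ⟨x, rfl⟩ ⟨x, rfl⟩
    · refine sup_le ?_ ?_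
      · rintro _ ⟨x, rfl⟩
        exact ⟨p x, by simp [hpp, hqp]⟩
      · rintro _ ⟨x, rfl⟩
        exact ⟨q x, by simp [hqq, hpq]⟩
  have e2 : p.range ⊓ q.range = ⊥ := by
    rw [eq_bot_iff]
    rintro z ⟨⟨x, hx⟩, ⟨y, hy⟩⟩
    have h1 : p z = z := by rw [← hx]; exact hpp x
    have h2 : p z = 0 := by rw [← hy]; exact hpq y
    rw [Submodule.mem_bot, ← h1, h2]
  have := Submodule.finrank_sup_add_finrank_inf_eq p.range q.range
  rw [e2, finrank_bot, add_zero] at this
  rw [e1, this]

theorem fd_corner {p : H →L[ℂ] H} (hp : IsStarProjection p) [FiniteDimensional ℂ p.range] :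
    FiniteDimensional ℂ (LinearMap.range ((LinearMap.mulLeft ℂ p).comp
      (LinearMap.mulRight ℂ p))) := by
  obtain ⟨_, hp'⟩ := isStarProjection_iff_eq_starProjection_range.1 hp
  let L : (p.range →L[ℂ] p.range) →ₗ[ℂ] (H →L[ℂ] H) :=
    { toFun := fun T => p.range.subtypeL ∘L T ∘L p.range.orthogonalProjectionOnto
      map_add' := fun _ _ => by ext; simp
      map_smul' := fun _ _ => by ext; simp }
  refine Submodule.finiteDimensional_of_le (S₂ := LinearMap.range L) ?_
  rintro _ ⟨x, rfl⟩
  refine ⟨p.range.orthogonalProjectionOnto ∘L x ∘L p.range.subtypeL, ?_⟩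
  ext y
  have : ∀ z, (p.range.orthogonalProjectionOnto z : H) = p z := by
    intro z
    conv_rhs => rw [hp']
    rfl
  simp [L, this]

end hilbert

open scoped ENNReal in
/-- the Hilbert space -/
abbrev HH : Type := lp (fun _ : ℕ => ℂ) 2

theorem exists_isometries : ∃ s : ℕ → (HH →L[ℂ] HH),
    ∀ i j, star (s i) * s j = if i = j then 1 else 0 := by
  classical
  let b : HilbertBasis ℕ ℂ HH := default
  have hb := b.orthonormal
  have hv : ∀ i : ℕ, Orthonormal ℂ (fun n : ℕ => b (Nat.pair i n)) := fun i =>
    hb.comp (fun n => Nat.pair i n) fun a c h => (Nat.pair_eq_pair.1 h).2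
  let S : ℕ → (HH →ₗᵢ[ℂ] HH) := fun i => (hv i).orthogonalFamily.linearIsometry
  refine ⟨fun i => (S i).toContinuousLinearMap, fun i j => ?_⟩
  split_ifs with hij
  · subst hij
    exact (S i).toContinuousLinearMap.isometry_iff_adjoint_comp_self.1 (S i).isometry
  · ext1 y
    refine ext_inner_left ℂ fun x => ?_
    rw [ContinuousLinearMap.star_eq_adjoint]
    simp only [mul_apply_eq_comp, ContinuousLinearMap.adjoint_inner_right,
      zero_apply, inner_zero_right]
    have h1 := (hv i).orthogonalFamily.hasSum_linearIsometry x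
    have h2 := (hv j).orthogonalFamily.hasSum_linearIsometry y
    have h3 : ∀ m : ℕ, inner ℂ (b (Nat.pair i m)) (S j y) = 0 := by
      intro m
      have := h2.mapL (innerSL ℂ (b (Nat.pair i m)))
      have h4 : (fun n => (innerSL ℂ (b (Nat.pair i m)))
          (LinearIsometry.toSpanSingleton ℂ HH ((hv j).1 n) (y n))) = fun _ => 0 := by
        funext n
        have : inner ℂ (b (Nat.pair i m)) (b (Nat.pair j n)) = 0 :=
          hb.2 fun h => hij (Nat.pair_eq_pair.1 h).1
        simp [this]
      rw [h4] at this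
      exact this.unique hasSum_zero
    have h5 := h1.mapL (innerSL ℂ (S j y))
    have h6 : (fun n => (innerSL ℂ (S j y))
        (LinearIsometry.toSpanSingleton ℂ HH ((hv i).1 n) (x n))) = fun _ => 0 := by
      funext n
      have : inner ℂ (S j y) (b (Nat.pair i n)) = 0 := by
        rw [← inner_conj_symm, h3]; simp
      simp [this]
    rw [h6] at h5
    have h7 : inner ℂ (S j y) (S i x) = 0 := h5.unique hasSum_zero
    show inner ℂ (S i x) (S j y) = 0
    rw [← inner_conj_symm, h7]; simp

theorem exists_model : Nonempty (Model (HH →L[ℂ] HH)) := by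
  obtain ⟨s, hs⟩ := exists_isometries
  refine ⟨{
    K := {T | IsCompactOperator T ∧ IsCompactOperator (star T : HH →L[ℂ] HH)}
    s := s
    rk := fun T => Module.finrank ℂ T.range
    closed := ?_
    zero_mem := ?_
    add_mem := ?_
    star_mem := ?_
    mul_left := ?_
    orth := hs
    rk_eq := ?_
    exists_pi := ?_
    rk_add := ?_
    exists_one := ?_
    fin := ?_ }⟩
  · have h1 : IsClosed {T : HH →L[ℂ] HH | IsCompactOperator T} :=
      isClosed_setOfPred_isCompactOperator
    exact h1.inter (h1.preimage continuous_star)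
  · exact ⟨isCompactOperator_zero, by rw [star_zero]; exact isCompactOperator_zero⟩
  · intro x y hx hy
    exact ⟨hx.1.add hy.1, by rw [star_add]; exact hx.2.add hy.2⟩
  · intro x hx
    exact ⟨hx.2, by rw [star_star]; exact hx.1⟩
  · intro a x hx
    exact ⟨hx.1.clm_comp a, by rw [star_mul]; exact hx.2.comp_clm (star a)⟩
  · intro p q v hp hq hK h1 h2
    have := fd_of_compact hp hK.1
    obtain ⟨h3, h4⟩ := finrank_le_of_pi hp h1 h2
    obtain ⟨-, h5⟩ := finrank_le_of_pi (v := star v) (q := p) hq (by simpa using h2)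
      (by simpa using h1)
    exact le_antisymm h5 h4
  · intro p q hp hq hpK hqK h
    have := fd_of_compact hp hpK.1
    have := fd_of_compact hq hqK.1
    exact exists_pi_of_finrank hp hq h
  · intro p q hp hq hpK hqK h
    have := fd_of_compact hp hpK.1
    have := fd_of_compact hq hqK.1
    exact finrank_add_of_orth hp hq h
  · let b : HilbertBasis ℕ ℂ HH := default
    have hb0 : b 0 ≠ 0 := b.orthonormal.ne_zero 0
    let U : Submodule ℂ HH := Submodule.span ℂ {b 0}
    have hc : IsCompactOperator U.starProjection :=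
      (isCompactOperator_of_locallyCompactSpace_dom U.orthogonalProjectionOnto).clm_comp U.subtypeL
    have hp : IsStarProjection U.starProjection := isStarProjection_starProjection
    refine ⟨U.starProjection, ⟨hc, by rw [hp.isSelfAdjoint.star_eq]; exact hc⟩, hp, ?_⟩
    show Module.finrank ℂ U.starProjection.range = 1
    rw [Submodule.range_starProjection]
    exact finrank_span_singleton hb0
  · intro p hp hpK
    have := fd_of_compact hp hpK.1
    exact fd_corner hp

end Pool.Agent.H866Z.SM
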