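import Mathlib
import Pool.Agent.H866Z.SM.Hilb

set_option autoImplicit false
set_option linter.unusedSectionVars false

open Set Topology Matrix

namespace Pool.Agent.H866Z.SM

variable {B : Type} [CStarAlgebra B]

/-- a family of isometries with orthogonal ranges -/
def Orth {ι : Type} [DecidableEq ι] (s : ι → B) : Prop :=
  ∀ i j, star (s i) * s j = if i = j then 1 else 0

/-- the element of `B` attached to a matrix -/
def Phi {ι κ : Type} [Fintype ι] [Fintype κ] (s : ι → B) (t : κ → B) (a : Matrix ι κ B) : B :=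
  ∑ i, ∑ j, s i * a i j * star (t j)

/-- the matrix attached to an element of `B` -/
def Psi {ι κ : Type} (s : ι → B) (t : κ → B) (x : B) : Matrix ι κ B :=
  fun i j => star (s i) * x * t j

section
variable {ι κ μ : Type} [Fintype ι] [Fintype κ] [Fintype μ]

theorem star_Phi (s : ι → B) (t : κ → B) (a : Matrix ι κ B) :
    star (Phi s t a) = Phi t s aᴴ := by
  unfold Phi
  rw [Finset.sum_comm]
  simp [star_sum, mul_assoc]

theorem Phi_add (s : ι → B) (t : κ → B) (a b : Matrix ι κ B) :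
    Phi s t (a + b) = Phi s t a + Phi s t b := by
  simp [Phi, mul_add, add_mul, Finset.sum_add_distrib]

theorem Phi_mul_right [DecidableEq κ] (s : ι → B) {t : κ → B} (ht : Orth t) (a : Matrix ι κ B)
    (j : κ) : Phi s t a * t j = ∑ i, s i * a i j := by
  unfold Phi
  rw [Finset.sum_mul]
  refine Finset.sum_congr rfl fun i _ => ?_
  rw [Finset.sum_mul]
  simp only [mul_assoc, ht _ j]
  simp

theorem Phi_mul [DecidableEq κ] (s : ι → B) {t : κ → B} (ht : Orth t) (u : μ → B)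
    (a : Matrix ι κ B) (b : Matrix κ μ B) : Phi s t a * Phi t u b = Phi s u (a * b) := by
  have : Phi s t a * Phi t u b = ∑ j, ∑ m, (Phi s t a * t j) * b j m * star (u m) := by
    conv_lhs => rw [Phi.eq_def t u b]
    simp only [Finset.mul_sum, mul_assoc]
  rw [this]
  simp only [Phi_mul_right s ht]
  simp only [Phi, Matrix.mul_apply, Finset.sum_mul, Finset.mul_sum, mul_assoc]
  rw [Finset.sum_comm]
  rw [Finset.sum_comm (s := (Finset.univ : Finset ι))]
  refine Finset.sum_congr rfl fun m _ => ?_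
  rw [Finset.sum_comm]

theorem Phi_mul_eq_zero {ν : Type} [Fintype ν] (s : ι → B) {t : κ → B} {t' : ν → B}
    (h : ∀ i j, star (t i) * t' j = 0) (u : μ → B)
    (a : Matrix ι κ B) (b : Matrix ν μ B) : Phi s t a * Phi t' u b = 0 := by
  unfold Phi
  simp only [Finset.sum_mul, Finset.mul_sum]
  refine Finset.sum_eq_zero fun _ _ => Finset.sum_eq_zero fun _ _ =>
    Finset.sum_eq_zero fun _ _ => Finset.sum_eq_zero fun _ _ => ?_
  simp only [mul_assoc]
  rw [← mul_assoc (star (t _)), h]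
  simp

theorem Psi_Phi [DecidableEq ι] [DecidableEq κ] {s : ι → B} (hs : Orth s) {t : κ → B}
    (ht : Orth t) (a : Matrix ι κ B) : Psi s t (Phi s t a) = a := by
  ext i j
  unfold Psi
  rw [mul_assoc, Phi_mul_right s ht, Finset.mul_sum]
  simp only [← mul_assoc, hs i]
  simp

theorem Psi_star (s : ι → B) (t : κ → B) (x : B) : (Psi s t x)ᴴ = Psi t s (star x) := by
  ext i j
  simp [Psi, mul_assoc]

theorem Psi_mul [DecidableEq κ] (s : ι → B) (t : κ → B) (u : μ → B) (x y : B) :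
    Psi s t x * Psi t u y = Psi s u (x * (Phi t t 1 * y)) := by
  ext i j
  simp only [Psi, Matrix.mul_apply, Phi, Matrix.one_apply, Finset.sum_mul, Finset.mul_sum]
  refine Finset.sum_congr rfl fun m _ => ?_
  rw [Finset.sum_eq_single m]
  · simp [mul_assoc]
  · intro b _ hb
    simp [hb.symm]
  · simp

theorem Phi_proj [DecidableEq ι] {s : ι → B} (hs : Orth s) {p : Matrix ι ι B} (h1 : p * p = p)
    (h2 : pᴴ = p) : IsStarProjection (Phi s s p) :=
  ⟨by show _ * _ = _; rw [Phi_mul s hs, h1], by show star _ = _; rw [star_Phi, h2]⟩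

theorem Phi_pi [DecidableEq ι] [DecidableEq κ] {s : ι → B} (hs : Orth s) {t : κ → B} (ht : Orth t)
    {p : Matrix ι ι B} {q : Matrix κ κ B} {v : Matrix κ ι B} (h1 : vᴴ * v = p) (h2 : v * vᴴ = q) :
    star (Phi t s v) * Phi t s v = Phi s s p ∧ Phi t s v * star (Phi t s v) = Phi t t q := by
  rw [star_Phi, Phi_mul s ht, Phi_mul t hs, h1, h2]
  exact ⟨rfl, rfl⟩

theorem Psi_pi [DecidableEq ι] [DecidableEq κ] {s : ι → B} (hs : Orth s) {t : κ → B} (ht : Orth t)
    {p : Matrix ι ι B} {q : Matrix κ κ B} (hp1 : p * p = p) (hp2 : pᴴ = p) (hq1 : q * q = q)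
    (hq2 : qᴴ = q) {V : B} (h1 : star V * V = Phi s s p) (h2 : V * star V = Phi t t q) :
    (Psi t s V)ᴴ * Psi t s V = p ∧ Psi t s V * (Psi t s V)ᴴ = q := by
  have a := pi_mul_source (Phi_proj hs hp1 hp2) h1
  have b := target_mul_pi (Phi_proj ht hq1 hq2) h2
  have a' : Phi s s p * star V = star V := by
    have := congrArg star a
    rwa [star_mul, (Phi_proj hs hp1 hp2).isSelfAdjoint.star_eq] at this
  constructor
  · rw [Psi_star, Psi_mul]
    have : Phi t t 1 * V = V := by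
      rw [← b, ← mul_assoc, Phi_mul t ht, Matrix.one_mul]
    rw [this, h1, Psi_Phi hs hs]
  · rw [Psi_star, Psi_mul]
    have : Phi s s 1 * star V = star V := by
      rw [← a', ← mul_assoc, Phi_mul s hs, Matrix.one_mul]
    rw [this, h2, Psi_Phi ht ht]

theorem Orth.norm_le [DecidableEq ι] {s : ι → B} (hs : Orth s) (i : ι) : ‖s i‖ ≤ 1 :=
  norm_le_one_of_pi (IsStarProjection.one B) (by simpa using hs i i)

theorem norm_Psi_le [DecidableEq ι] [DecidableEq κ] {s : ι → B} (hs : Orth s) {t : κ → B}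
    (ht : Orth t) {x : B} (hx : ‖x‖ ≤ 1) (i : ι) (j : κ) : ‖Psi s t x i j‖ ≤ 1 := by
  unfold Psi
  have h1 := hs.norm_le i
  have h2 := ht.norm_le j
  calc _ ≤ ‖star (s i)‖ * ‖x‖ * ‖t j‖ := norm_mul₃_le
    _ ≤ 1 * 1 * 1 := by
      rw [norm_star]
      gcongr
    _ = 1 := by norm_num

end

namespace Model
variable (M : Model B)

theorem mul_right (a : B) {x : B} (hx : x ∈ M.K) : x * a ∈ M.K := by
  have := M.star_mem (M.mul_left (star a) (M.star_mem hx))
  simpa using this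

theorem sum_mem {ι : Type} (S : Finset ι) (f : ι → B) (h : ∀ i ∈ S, f i ∈ M.K) :
    ∑ i ∈ S, f i ∈ M.K :=
  Finset.sum_induction f (· ∈ M.K) (fun _ _ => M.add_mem) M.zero_mem h

theorem Phi_mem {ι κ : Type} [Fintype ι] [Fintype κ] (s : ι → B) (t : κ → B) {a : Matrix ι κ B}
    (h : ∀ i j, a i j ∈ M.K) : Phi s t a ∈ M.K :=
  M.sum_mem _ _ fun i _ => M.sum_mem _ _ fun j _ => M.mul_right _ (M.mul_left _ (h i j))

/-- the standard family -/
def sf (k : ℕ) : Fin k → B := fun i => M.s i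

theorem orth_sf (k : ℕ) : Orth (M.sf k) := fun i j => by
  simp [sf, M.orth, Fin.ext_iff]

/-- rank of a matrix -/
def rkM {k : ℕ} (p : Matrix (Fin k) (Fin k) B) : ℕ := M.rk (Phi (M.sf k) (M.sf k) p)

theorem rk_Phi_of_pi {ι κ : Type} [Fintype ι] [Fintype κ] [DecidableEq ι] [DecidableEq κ]
    {s : ι → B} (hs : Orth s) {t : κ → B} (ht : Orth t)
    {p : Matrix ι ι B} {q : Matrix κ κ B} (hp1 : p * p = p) (hp2 : pᴴ = p) (hq1 : q * q = q)
    (hq2 : qᴴ = q) (hK : ∀ i j, p i j ∈ M.K) {v : Matrix κ ι B} (h1 : vᴴ * v = p)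
    (h2 : v * vᴴ = q) : M.rk (Phi s s p) = M.rk (Phi t t q) :=
  M.rk_eq (Phi_proj hs hp1 hp2) (Phi_proj ht hq1 hq2) (M.Phi_mem _ _ hK)
    (Phi_pi hs ht h1 h2).1 (Phi_pi hs ht h1 h2).2

theorem rk_Phi_eq {k : ℕ} {s : Fin k → B} (hs : Orth s) {p : Matrix (Fin k) (Fin k) B}
    (hp1 : p * p = p) (hp2 : pᴴ = p) (hK : ∀ i j, p i j ∈ M.K) : M.rk (Phi s s p) = M.rkM p :=
  M.rk_Phi_of_pi hs (M.orth_sf k) hp1 hp2 hp1 hp2 hK (v := p) (by rw [hp2, hp1]) (by rw [hp2, hp1])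

theorem rk_zero : M.rk 0 = 0 := by
  have := M.rk_add (IsStarProjection.zero B) (IsStarProjection.zero B) M.zero_mem M.zero_mem
    (mul_zero _)
  rw [add_zero] at this
  omega

theorem rkM_exists_pi {k l : ℕ} {p : Matrix (Fin k) (Fin k) B} {q : Matrix (Fin l) (Fin l) B}
    (hp1 : p * p = p) (hp2 : pᴴ = p) (hq1 : q * q = q) (hq2 : qᴴ = q) (hpK : ∀ i j, p i j ∈ M.K)
    (hqK : ∀ i j, q i j ∈ M.K) (h : M.rkM p = M.rkM q) :
    ∃ v : Matrix (Fin l) (Fin k) B, vᴴ * v = p ∧ v * vᴴ = q := by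
  obtain ⟨V, h1, h2⟩ := M.exists_pi (Phi_proj (M.orth_sf k) hp1 hp2)
    (Phi_proj (M.orth_sf l) hq1 hq2) (M.Phi_mem _ _ hpK) (M.Phi_mem _ _ hqK) h
  exact ⟨_, Psi_pi (M.orth_sf k) (M.orth_sf l) hp1 hp2 hq1 hq2 h1 h2⟩

theorem rkM_block {k l : ℕ} {p : Matrix (Fin k) (Fin k) B} {q : Matrix (Fin l) (Fin l) B}
    (hp1 : p * p = p) (hp2 : pᴴ = p) (hq1 : q * q = q) (hq2 : qᴴ = q) (hpK : ∀ i j, p i j ∈ M.K)
    (hqK : ∀ i j, q i j ∈ M.K) :
    M.rkM (Matrix.reindex finSumFinEquiv finSumFinEquiv (Matrix.fromBlocks p 0 0 q))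
      = M.rkM p + M.rkM q := by
  let t : Fin l → B := fun i => M.s (k + i)
  have ht : Orth t := fun i j => by simp [t, M.orth, Fin.ext_iff]
  have e : Phi (M.sf (k + l)) (M.sf (k + l))
      (Matrix.reindex finSumFinEquiv finSumFinEquiv (Matrix.fromBlocks p 0 0 q))
      = Phi (M.sf k) (M.sf k) p + Phi t t q := by
    simp [Phi, Fin.sum_univ_add, sf, t]
  rw [rkM, e, M.rk_add (Phi_proj (M.orth_sf k) hp1 hp2) (Phi_proj ht hq1 hq2) (M.Phi_mem _ _ hpK)
    (M.Phi_mem _ _ hqK), M.rk_Phi_eq ht hq1 hq2 hqK]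
  · rfl
  · refine Phi_mul_eq_zero _ (fun i j => ?_) _ _ _
    have : (i : ℕ) ≠ k + j := by have := i.2; omega
    simp [sf, t, M.orth, this]

/-- the boundary operation -/
def osum (x y : B) : B := M.s 1 * x * star (M.s 1) + M.s 2 * y * star (M.s 2)

theorem osum_mul (x y x' y' : B) : M.osum x y * M.osum x' y' = M.osum (x * x') (y * y') := by
  have h11 : star (M.s 1) * M.s 1 = 1 := by simp [M.orth]
  have h22 : star (M.s 2) * M.s 2 = 1 := by simp [M.orth]
  have h12 : star (M.s 1) * M.s 2 = 0 := by simp [M.orth]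
  have h21 : star (M.s 2) * M.s 1 = 0 := by simp [M.orth]
  have : M.osum x y * M.osum x' y' =
      M.s 1 * x * (star (M.s 1) * M.s 1) * x' * star (M.s 1) +
      M.s 1 * x * (star (M.s 1) * M.s 2) * y' * star (M.s 2) +
      M.s 2 * y * (star (M.s 2) * M.s 1) * x' * star (M.s 1) +
      M.s 2 * y * (star (M.s 2) * M.s 2) * y' * star (M.s 2) := by
    unfold osum
    noncomm_ring
  rw [this, h11, h22, h12, h21]
  simp [osum, mul_assoc]

theorem osum_star (x y : B) : star (M.osum x y) = M.osum (star x) (star y) := by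
  simp [osum, mul_assoc]

theorem osum_add (x y x' y' : B) : M.osum x y + M.osum x' y' = M.osum (x + x') (y + y') := by
  unfold osum
  noncomm_ring

theorem osum_smul (c : ℂ) (x y : B) : c • M.osum x y = M.osum (c • x) (c • y) := by
  simp [osum]

theorem osum_zero : M.osum 0 0 = 0 := by simp [osum]

theorem osum_sum {ι : Type} (S : Finset ι) (x y : ι → B) :
    ∑ i ∈ S, M.osum (x i) (y i) = M.osum (∑ i ∈ S, x i) (∑ i ∈ S, y i) := by
  simp [osum, Finset.sum_add_distrib, Finset.mul_sum, Finset.sum_mul]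

theorem osum_mem {x y : B} (hx : x ∈ M.K) (hy : y ∈ M.K) : M.osum x y ∈ M.K :=
  M.add_mem (M.mul_right _ (M.mul_left _ hx)) (M.mul_right _ (M.mul_left _ hy))

/-- entrywise boundary operation -/
def osumM {ι κ : Type} (a b : Matrix ι κ B) : Matrix ι κ B := fun i j => M.osum (a i j) (b i j)

theorem osumM_mul {ι κ μ : Type} [Fintype κ] (a b : Matrix ι κ B) (a' b' : Matrix κ μ B) :
    M.osumM a b * M.osumM a' b' = M.osumM (a * a') (b * b') := by
  ext i j
  simp [osumM, Matrix.mul_apply, osum_mul, osum_sum]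

theorem osumM_star {ι κ : Type} (a b : Matrix ι κ B) : (M.osumM a b)ᴴ = M.osumM aᴴ bᴴ := by
  ext i j
  simp [osumM, osum_star]

theorem rkM_osumM {k : ℕ} {p q : Matrix (Fin k) (Fin k) B}
    (hp1 : p * p = p) (hp2 : pᴴ = p) (hq1 : q * q = q) (hq2 : qᴴ = q) (hpK : ∀ i j, p i j ∈ M.K)
    (hqK : ∀ i j, q i j ∈ M.K) : M.rkM (M.osumM p q) = M.rkM p + M.rkM q := by
  have key : ∀ (a b : ℕ) (i j : Fin k), star (M.sf k i * M.s a) * (M.sf k j * M.s b)
      = if i = j then (if a = b then 1 else 0) else 0 := by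
    intro a b i j
    have : star (M.sf k i * M.s a) * (M.sf k j * M.s b)
        = star (M.s a) * (star (M.sf k i) * M.sf k j) * M.s b := by simp [mul_assoc]
    rw [this, M.orth_sf k i j]
    split_ifs <;> simp_all [M.orth]
  have o1 : Orth fun i => M.sf k i * M.s 1 := fun i j => by simpa using key 1 1 i j
  have o2 : Orth fun i => M.sf k i * M.s 2 := fun i j => by simpa using key 2 2 i j
  have e : Phi (M.sf k) (M.sf k) (M.osumM p q) =
      Phi (fun i => M.sf k i * M.s 1) (fun i => M.sf k i * M.s 1) p +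
      Phi (fun i => M.sf k i * M.s 2) (fun i => M.sf k i * M.s 2) q := by
    simp [Phi, osumM, osum, mul_add, add_mul, Finset.sum_add_distrib, mul_assoc]
  rw [rkM, e, M.rk_add (Phi_proj o1 hp1 hp2) (Phi_proj o2 hq1 hq2) (M.Phi_mem _ _ hpK)
    (M.Phi_mem _ _ hqK), M.rk_Phi_eq o1 hp1 hp2 hpK, M.rk_Phi_eq o2 hq1 hq2 hqK]
  exact Phi_mul_eq_zero _ (fun i j => by simpa using key 1 2 i j) _ _ _

open unitInterval in
theorem rkM_path {k : ℕ} (p : I → Matrix (Fin k) (Fin k) B) (hc : ∀ i j, Continuous fun t => p t i j)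
    (hp1 : ∀ t, p t * p t = p t) (hp2 : ∀ t, (p t)ᴴ = p t) (hK : ∀ t i j, p t i j ∈ M.K) :
    M.rkM (p 0) = M.rkM (p 1) := by
  let P : C(I, B) := ⟨fun t => Phi (M.sf k) (M.sf k) (p t), by unfold Phi; fun_prop⟩
  have hP : ∀ t, IsStarProjection (P t) := fun t => Phi_proj (M.orth_sf k) (hp1 t) (hp2 t)
  obtain ⟨U, hU, e⟩ := exists_unitary_path P hP
  have hpp : P 0 * P 0 = P 0 := (hP 0).isIdempotentElem.eq
  have hs : star (P 0) = P 0 := (hP 0).isSelfAdjoint.star_eq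
  refine M.rk_eq (hP 0) (hP 1) (M.Phi_mem _ _ (hK 0)) (v := U 1 * P 0) ?_ ?_
  · calc _ = P 0 * (star (U 1) * U 1) * P 0 := by rw [star_mul, hs]; noncomm_ring
      _ = P 0 := by rw [(hU 1).1, mul_one, hpp]
  · calc _ = U 1 * (P 0 * P 0) * star (U 1) := by rw [star_mul, hs]; noncomm_ring
      _ = P 1 := by rw [hpp, e 1]

open unitInterval in
theorem exists_pi_pathM {k l : ℕ} (p : I → Matrix (Fin k) (Fin k) B)
    (q : I → Matrix (Fin l) (Fin l) B) (hcp : ∀ i j, Continuous fun t => p t i j)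
    (hcq : ∀ i j, Continuous fun t => q t i j)
    (hp1 : ∀ t, p t * p t = p t) (hp2 : ∀ t, (p t)ᴴ = p t)
    (hq1 : ∀ t, q t * q t = q t) (hq2 : ∀ t, (q t)ᴴ = q t) (hK : ∀ t i j, p t i j ∈ M.K)
    {v0 v1 : Matrix (Fin l) (Fin k) B} (h0 : v0ᴴ * v0 = p 0) (h0' : v0 * v0ᴴ = q 0)
    (h1 : v1ᴴ * v1 = p 1) (h1' : v1 * v1ᴴ = q 1) :
    ∃ v : I → Matrix (Fin l) (Fin k) B, (∀ i j, Continuous fun t => v t i j) ∧
      (∀ t, (v t)ᴴ * v t = p t ∧ v t * (v t)ᴴ = q t) ∧ (∀ t i j, ‖v t i j‖ ≤ 1) ∧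
      (∀ t i j, v t i j ∈ M.K) ∧ v 0 = v0 ∧ v 1 = v1 := by
  let P : C(I, B) := ⟨fun t => Phi (M.sf k) (M.sf k) (p t), by unfold Phi; fun_prop⟩
  let Q : C(I, B) := ⟨fun t => Phi (M.sf l) (M.sf l) (q t), by unfold Phi; fun_prop⟩
  have hP : ∀ t, IsStarProjection (P t) := fun t => Phi_proj (M.orth_sf k) (hp1 t) (hp2 t)
  have hQ : ∀ t, IsStarProjection (Q t) := fun t => Phi_proj (M.orth_sf l) (hq1 t) (hq2 t)
  obtain ⟨V, hV, e0, e1⟩ := exists_pi_path P Q hP hQ (M.fin (hP 0) (M.Phi_mem _ _ (hK 0)))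
    (Phi_pi (M.orth_sf k) (M.orth_sf l) h0 h0').1 (Phi_pi (M.orth_sf k) (M.orth_sf l) h0 h0').2
    (Phi_pi (M.orth_sf k) (M.orth_sf l) h1 h1').1 (Phi_pi (M.orth_sf k) (M.orth_sf l) h1 h1').2
  refine ⟨fun t => Psi (M.sf l) (M.sf k) (V t), fun i j => by unfold Psi; fun_prop, fun t =>
    Psi_pi (M.orth_sf k) (M.orth_sf l) (hp1 t) (hp2 t) (hq1 t) (hq2 t) (hV t).1 (hV t).2,
    fun t i j => norm_Psi_le (M.orth_sf l) (M.orth_sf k) (norm_le_one_of_pi (hP t) (hV t).1) i j,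
    fun t i j => ?_, ?_, ?_⟩
  · have : V t ∈ M.K := by
      rw [← pi_mul_source (hP t) (hV t).1]
      exact M.mul_left _ (M.Phi_mem _ _ (hK t))
    exact M.mul_right _ (M.mul_left _ this)
  · show Psi _ _ (V 0) = v0
    rw [e0, Psi_Phi (M.orth_sf l) (M.orth_sf k)]
  · show Psi _ _ (V 1) = v1
    rw [e1, Psi_Phi (M.orth_sf l) (M.orth_sf k)]

theorem conj_proj (a : ℕ) {p : B} (hp : IsStarProjection p) (hK : p ∈ M.K) :
    IsStarProjection (M.s a * p * star (M.s a)) ∧ M.s a * p * star (M.s a) ∈ M.K ∧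
      M.rk (M.s a * p * star (M.s a)) = M.rk p := by
  have hpp : p * p = p := hp.isIdempotentElem.eq
  have hs : star p = p := hp.isSelfAdjoint.star_eq
  have h11 : star (M.s a) * M.s a = 1 := by simp [M.orth]
  have h1 : star (M.s a * p) * (M.s a * p) = p := by
    calc _ = p * (star (M.s a) * M.s a) * p := by rw [star_mul, hs]; noncomm_ring
      _ = p := by rw [h11, mul_one, hpp]
  have h2 : (M.s a * p) * star (M.s a * p) = M.s a * p * star (M.s a) := by
    calc _ = M.s a * (p * p) * star (M.s a) := by rw [star_mul, hs]; noncomm_ring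
      _ = _ := by rw [hpp]
  have h3 := isStarProjection_mul_star hp h1
  rw [h2] at h3
  exact ⟨h3, M.mul_right _ (M.mul_left _ hK), (M.rk_eq hp h3 hK h1 h2).symm⟩

theorem conj_orth {a b : ℕ} (hab : a ≠ b) (x y : B) :
    (M.s a * x * star (M.s a)) * (M.s b * y * star (M.s b)) = 0 := by
  have h : star (M.s a) * M.s b = 0 := by simp [M.orth, hab]
  calc _ = M.s a * x * (star (M.s a) * M.s b) * y * star (M.s b) := by noncomm_ring
    _ = 0 := by rw [h]; simp

theorem osum_proj {p q : B} (hp : IsStarProjection p) (hq : IsStarProjection q) (hpK : p ∈ M.K)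
    (hqK : q ∈ M.K) : IsStarProjection (M.osum p q) ∧ M.rk (M.osum p q) = M.rk p + M.rk q := by
  obtain ⟨a1, a2, a3⟩ := M.conj_proj 1 hp hpK
  obtain ⟨b1, b2, b3⟩ := M.conj_proj 2 hq hqK
  have h := M.conj_orth (a := 1) (b := 2) (by norm_num) p q
  exact ⟨a1.add b1 h, by rw [osum, M.rk_add a1 b1 a2 b2 h, a3, b3]⟩

theorem exists_rank (n : ℕ) : ∃ p ∈ M.K, IsStarProjection p ∧ M.rk p = n := by
  induction n with
  | zero => exact ⟨0, M.zero_mem, IsStarProjection.zero B, M.rk_zero⟩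
  | succ n ih =>
    obtain ⟨p, hpK, hp, hr⟩ := ih
    obtain ⟨q, hqK, hq, hr'⟩ := M.exists_one
    obtain ⟨h1, h2⟩ := M.osum_proj hp hq hpK hqK
    exact ⟨_, M.osum_mem hpK hqK, h1, by rw [h2, hr, hr']⟩

open unitInterval in
theorem exists_proj_path {p q : B} (hp : IsStarProjection p) (hq : IsStarProjection q)
    (hpK : p ∈ M.K) (hqK : q ∈ M.K) (hpq : p * q = 0) (h : M.rk p = M.rk q) :
    ∃ h : I → B, Continuous h ∧ (∀ t, IsStarProjection (h t)) ∧ (∀ t, h t ∈ M.K) ∧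
      h 0 = p ∧ h 1 = q := by
  obtain ⟨v, h1, h2⟩ := M.exists_pi hp hq hpK hqK h
  have hpp : p * p = p := hp.isIdempotentElem.eq
  have hs : star p = p := hp.isSelfAdjoint.star_eq
  have a := pi_mul_source hp h1
  have b := target_mul_pi hq h2
  have hpv : p * v = 0 := by rw [← b, ← mul_assoc, hpq, zero_mul]
  have hvp : star v * p = 0 := by simpa [hs] using congrArg star hpv
  let V : I → B := fun t => ((Real.sqrt (1 - t) : ℝ) : ℂ) • p + ((Real.sqrt t : ℝ) : ℂ) • v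
  have hV : ∀ t, star (V t) * V t = p := by
    intro t
    have e1 : ((Real.sqrt (1 - t) : ℝ) : ℂ) * ((Real.sqrt (1 - t) : ℝ) : ℂ) = 1 - (t : ℝ) := by
      rw [← Complex.ofReal_mul, Real.mul_self_sqrt (by linarith [t.2.2])]
      simp
    have e2 : ((Real.sqrt t : ℝ) : ℂ) * ((Real.sqrt t : ℝ) : ℂ) = (t : ℝ) := by
      rw [← Complex.ofReal_mul, Real.mul_self_sqrt t.2.1]
    simp only [V, star_add, star_smul, hs, Complex.star_def, Complex.conj_ofReal, add_mul, mul_add,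
      smul_mul_smul_comm, hpp, hpv, hvp, h1, e1, e2, smul_zero, add_zero, zero_add, ← add_smul]
    simp
  refine ⟨fun t => V t * star (V t), by fun_prop, fun t => isStarProjection_mul_star hp (hV t),
    fun t => ?_, ?_, ?_⟩
  · refine M.mul_right _ ?_
    rw [← pi_mul_source hp (hV t)]
    exact M.mul_left _ hpK
  · simp [V, hs, hpp]
  · simp [V, h2]

end Model

end Pool.Agent.H866Z.SM
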