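import Mathlib
import Pool.Agent.H866Z.SM.Mat

set_option autoImplicit false
set_option linter.unusedSectionVars false

open Set Topology Matrix unitInterval BoundedContinuousFunction

namespace Pool.Agent.H866Z.SM

/-- the dual monoid, with the discrete topology -/
def Du (n : ℕ) : Type := (Fin n → ℕ) →+ ℕ

instance (n : ℕ) : AddCommMonoid (Du n) := inferInstanceAs (AddCommMonoid ((Fin n → ℕ) →+ ℕ))
instance (n : ℕ) : TopologicalSpace (Du n) := ⊥
instance (n : ℕ) : DiscreteTopology (Du n) := ⟨rfl⟩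

/-- pull back along a homomorphism -/
def Du.pull {m n : ℕ} (f : (Fin m → ℕ) →+ (Fin n → ℕ)) (y : Du n) : Du m :=
  AddMonoidHom.comp (show (Fin n → ℕ) →+ ℕ from y) f

/-- evaluation -/
def Du.ev {n : ℕ} (y : Du n) (x : Fin n → ℕ) : ℕ := (show (Fin n → ℕ) →+ ℕ from y) x

/-- coordinate functionals -/
def Du.co {n : ℕ} (i : Fin n) : Du n := Pi.evalAddMonoidHom (fun _ : Fin n => ℕ) i

theorem Du.pull_add {m n : ℕ} (f : (Fin m → ℕ) →+ (Fin n → ℕ)) (y z : Du n) :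
    Du.pull f (y + z) = Du.pull f y + Du.pull f z := rfl

theorem Du.pull_zero {m n : ℕ} (f : (Fin m → ℕ) →+ (Fin n → ℕ)) :
    Du.pull f (0 : Du n) = 0 := rfl

theorem Du.ev_add {n : ℕ} (y z : Du n) (x : Fin n → ℕ) : (y + z).ev x = y.ev x + z.ev x := rfl

theorem Du.additive_eq {n : ℕ} (R : Du n → ℕ) (hR : ∀ y z, R (y + z) = R y + R z) (y : Du n) :
    R y = y.ev fun i => R (Du.co i) := by
  classical
  have h0 : R 0 = 0 := by
    have := hR 0 0
    rw [add_zero] at this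
    omega
  let R' : Du n →+ ℕ := ⟨⟨R, h0⟩, hR⟩
  have e : y = ∑ i, (y.ev (Pi.single i 1)) • Du.co i := by
    refine AddMonoidHom.ext (M := Fin n → ℕ) (N := ℕ) fun x => ?_
    have h1 : (show (Fin n → ℕ) →+ ℕ from ∑ i, (y.ev (Pi.single i 1)) • Du.co i) x
        = ∑ i, (y.ev (Pi.single i 1)) * x i := by
      exact AddMonoidHom.finsetSum_apply (fun i => (y.ev (Pi.single i 1)) •
        (Pi.evalAddMonoidHom (fun _ : Fin n => ℕ) i)) Finset.univ x
    refine Eq.trans ?_ h1.symm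
    have h2 : x = ∑ i, x i • (Pi.single i 1 : Fin n → ℕ) := by
      funext j
      simp [Finset.sum_apply, Pi.single_apply]
    conv_lhs => rw [h2]
    rw [map_sum]
    refine Finset.sum_congr rfl fun i _ => ?_
    rw [map_nsmul, smul_eq_mul, mul_comm]
    rfl
  have e2 : (fun i => R (Du.co i)) = ∑ i, R (Du.co i) • (Pi.single i 1 : Fin n → ℕ) := by
    funext j
    simp [Finset.sum_apply, Pi.single_apply]
  have e3 : y.ev (fun i => R (Du.co i)) = ∑ i, R (Du.co i) * y.ev (Pi.single i 1) := by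
    rw [e2]
    unfold Du.ev
    rw [map_sum]
    refine Finset.sum_congr rfl fun i _ => ?_
    rw [map_nsmul, smul_eq_mul]
  rw [e3]
  change R' y = _
  conv_lhs => rw [e]
  rw [map_sum]
  refine Finset.sum_congr rfl fun i _ => ?_
  rw [map_nsmul, smul_eq_mul, mul_comm]
  rfl

/-- the base space -/
abbrev T (n : ℕ) : Type := (Du n × Du n) × I

/-- pull back on the base space -/
def T.pull {m n : ℕ} (f : (Fin m → ℕ) →+ (Fin n → ℕ)) : C(T n, T m) :=
  ⟨fun τ => ((Du.pull f τ.1.1, Du.pull f τ.1.2), τ.2), by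
    refine Continuous.prodMk ?_ continuous_snd
    exact (continuous_of_discreteTopology
      (f := fun y : Du n × Du n => (Du.pull f y.1, Du.pull f y.2))).comp continuous_fst⟩

variable {B : Type} [CStarAlgebra B]

namespace Model
variable (M : Model B)

/-- the C*-algebra attached to the simplicial monoid of rank `n` -/
def alg (n : ℕ) : NonUnitalStarSubalgebra ℂ (T n →ᵇ B) where
  carrier := {h | (∀ τ, h τ ∈ M.K) ∧ (∀ y z, h ((y, z), 0) = h ((y + z, 0), 0)) ∧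
    ∀ y z, h ((y, z), 1) = M.osum (h ((y, 0), 0)) (h ((z, 0), 0))}
  add_mem' := by
    rintro a b ⟨a1, a2, a3⟩ ⟨b1, b2, b3⟩
    refine ⟨fun τ => M.add_mem (a1 τ) (b1 τ), fun y z => ?_, fun y z => ?_⟩
    · simp [a2 y z, b2 y z]
    · simp [a3 y z, b3 y z, M.osum_add]
  zero_mem' := ⟨fun _ => M.zero_mem, fun _ _ => rfl, fun _ _ => by simp [M.osum_zero]⟩
  mul_mem' := by
    rintro a b ⟨a1, a2, a3⟩ ⟨b1, b2, b3⟩
    refine ⟨fun τ => M.mul_left _ (b1 τ), fun y z => ?_, fun y z => ?_⟩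
    · simp [a2 y z, b2 y z]
    · simp [a3 y z, b3 y z, M.osum_mul]
  smul_mem' := by
    rintro c a ⟨a1, a2, a3⟩
    refine ⟨fun τ => ?_, fun y z => ?_, fun y z => ?_⟩
    · have := M.mul_left (c • (1 : B)) (a1 τ)
      simpa using this
    · simp [a2 y z]
    · simp [a3 y z, M.osum_smul]
  star_mem' := by
    rintro a ⟨a1, a2, a3⟩
    refine ⟨fun τ => M.star_mem (a1 τ), fun y z => ?_, fun y z => ?_⟩
    · simp [a2 y z]
    · simp [a3 y z, M.osum_star]

instance isClosed_alg (n : ℕ) : IsClosed (M.alg n : Set (T n →ᵇ B)) := by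
  have hev : ∀ τ : T n, Continuous fun h : T n →ᵇ B => h τ := fun τ => continuous_eval_const τ
  have : (M.alg n : Set (T n →ᵇ B)) = (⋂ τ, {h | h τ ∈ M.K}) ∩
      ((⋂ y, ⋂ z, {h | h ((y, z), 0) = h ((y + z, 0), 0)}) ∩
      ⋂ y, ⋂ z, {h | h ((y, z), 1) = M.osum (h ((y, 0), 0)) (h ((z, 0), 0))}) := by
    ext h
    simp only [mem_inter_iff, mem_iInter]
    rfl
  rw [this]
  refine (isClosed_iInter fun τ => M.closed.preimage (hev τ)).inter
    ((isClosed_iInter fun y => isClosed_iInter fun z => isClosed_eq (hev _) (hev _)).inter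
    (isClosed_iInter fun y => isClosed_iInter fun z => isClosed_eq (hev _) ?_))
  unfold osum
  exact ((continuous_const.mul (hev _)).mul continuous_const).add
    ((continuous_const.mul (hev _)).mul continuous_const)

noncomputable instance (n : ℕ) : NonUnitalCStarAlgebra (M.alg n) :=
  NonUnitalStarSubalgebra.nonUnitalCStarAlgebra (M.alg n)

/-- the homomorphism attached to a monoid homomorphism -/
noncomputable def hom {m n : ℕ} (f : (Fin m → ℕ) →+ (Fin n → ℕ)) : M.alg m →⋆ₙₐ[ℂ] M.alg n where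
  toFun h := ⟨h.1.compContinuous (T.pull f), fun _ => h.2.1 _,
    fun y z => h.2.2.1 (Du.pull f y) (Du.pull f z), fun y z => h.2.2.2 (Du.pull f y) (Du.pull f z)⟩
  map_smul' _ _ := rfl
  map_zero' := rfl
  map_add' _ _ := rfl
  map_mul' _ _ := rfl
  map_star' _ := rfl

/-- evaluation of a matrix at a point -/
def evM {n : ℕ} {ι κ : Type} (a : Matrix ι κ (M.alg n)) (τ : T n) : Matrix ι κ B :=
  fun i j => (a i j).1 τ

theorem evM_mul {n : ℕ} {ι κ μ : Type} [Fintype κ] (a : Matrix ι κ (M.alg n))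
    (b : Matrix κ μ (M.alg n)) (τ : T n) : M.evM (a * b) τ = M.evM a τ * M.evM b τ := by
  ext i j
  simp [evM, Matrix.mul_apply]

theorem evM_star {n : ℕ} {ι κ : Type} (a : Matrix ι κ (M.alg n)) (τ : T n) :
    M.evM aᴴ τ = (M.evM a τ)ᴴ := rfl

theorem evM_ext {n : ℕ} {ι κ : Type} {a b : Matrix ι κ (M.alg n)}
    (h : ∀ τ, M.evM a τ = M.evM b τ) : a = b := by
  ext i j τ
  exact congrFun (congrFun (h τ) i) j

theorem evM_mem {n : ℕ} {ι κ : Type} (a : Matrix ι κ (M.alg n)) (τ : T n) (i : ι) (j : κ) :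
    M.evM a τ i j ∈ M.K := (a i j).2.1 τ

theorem evM_zero_end {n : ℕ} {ι κ : Type} (a : Matrix ι κ (M.alg n)) (y z : Du n) :
    M.evM a ((y, z), 0) = M.evM a ((y + z, 0), 0) := by
  ext i j
  exact (a i j).2.2.1 y z

theorem evM_one_end {n : ℕ} {ι κ : Type} (a : Matrix ι κ (M.alg n)) (y z : Du n) :
    M.evM a ((y, z), 1) = M.osumM (M.evM a ((y, 0), 0)) (M.evM a ((z, 0), 0)) := by
  ext i j
  exact (a i j).2.2.2 y z

theorem evM_cont {n : ℕ} {ι κ : Type} (a : Matrix ι κ (M.alg n)) (y : Du n × Du n) (i : ι)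
    (j : κ) : Continuous fun t : I => M.evM a (y, t) i j :=
  (a i j).1.continuous.comp (continuous_const.prodMk continuous_id)

/-- the rank function of a matrix -/
def R {n k : ℕ} (p : Matrix (Fin k) (Fin k) (M.alg n)) (y : Du n) : ℕ :=
  M.rkM (M.evM p ((y, 0), 0))

/-- the class of a matrix -/
def cls {n k : ℕ} (p : Matrix (Fin k) (Fin k) (M.alg n)) : Fin n → ℕ := fun i => M.R p (Du.co i)

theorem ev1 {n k : ℕ} {p : Matrix (Fin k) (Fin k) (M.alg n)} (h : p * p = p) (τ : T n) :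
    M.evM p τ * M.evM p τ = M.evM p τ := by rw [← evM_mul, h]

theorem ev2 {n k : ℕ} {p : Matrix (Fin k) (Fin k) (M.alg n)} (h : pᴴ = p) (τ : T n) :
    (M.evM p τ)ᴴ = M.evM p τ := by rw [← evM_star, h]

theorem R_add {n k : ℕ} {p : Matrix (Fin k) (Fin k) (M.alg n)} (h1 : p * p = p) (h2 : pᴴ = p)
    (y z : Du n) : M.R p (y + z) = M.R p y + M.R p z := by
  have := M.rkM_path (fun t => M.evM p ((y, z), t)) (M.evM_cont p (y, z))
    (fun t => M.ev1 h1 _) (fun t => M.ev2 h2 _) (fun t => M.evM_mem p _)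
  rw [evM_zero_end, evM_one_end, M.rkM_osumM (M.ev1 h1 _) (M.ev2 h2 _) (M.ev1 h1 _) (M.ev2 h2 _)
    (M.evM_mem p _) (M.evM_mem p _)] at this
  exact this

theorem R_eq {n k : ℕ} {p : Matrix (Fin k) (Fin k) (M.alg n)} (h1 : p * p = p) (h2 : pᴴ = p)
    (y : Du n) : M.R p y = y.ev (M.cls p) :=
  Du.additive_eq _ (M.R_add h1 h2) y

/-- building an element of the algebra -/
noncomputable def build {n : ℕ} (w : Du n × Du n → I → B) (hc : ∀ y, Continuous (w y))
    (hb : ∀ y t, ‖w y t‖ ≤ 1) (hK : ∀ y t, w y t ∈ M.K)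
    (h0 : ∀ y z, w (y, z) 0 = w (y + z, 0) 0)
    (h1 : ∀ y z, w (y, z) 1 = M.osum (w (y, 0) 0) (w (z, 0) 0)) : M.alg n :=
  ⟨BoundedContinuousFunction.ofNormedAddCommGroup (fun τ : T n => w τ.1 τ.2)
    (continuous_prod_of_discrete_left.2 hc) 1 (fun τ => hb τ.1 τ.2),
    fun τ => hK τ.1 τ.2, h0, h1⟩

theorem exists_pi_alg {n k l : ℕ} {p : Matrix (Fin k) (Fin k) (M.alg n)}
    {q : Matrix (Fin l) (Fin l) (M.alg n)} (hp1 : p * p = p) (hp2 : pᴴ = p) (hq1 : q * q = q)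
    (hq2 : qᴴ = q) (h : M.cls p = M.cls q) :
    ∃ v : Matrix (Fin l) (Fin k) (M.alg n), vᴴ * v = p ∧ v * vᴴ = q := by
  have hR : ∀ y, M.R p y = M.R q y := fun y => by rw [M.R_eq hp1 hp2, M.R_eq hq1 hq2, h]
  choose V hV1 hV2 using fun y => M.rkM_exists_pi (M.ev1 hp1 ((y, 0), 0)) (M.ev2 hp2 _)
    (M.ev1 hq1 ((y, 0), 0)) (M.ev2 hq2 _) (M.evM_mem p _) (M.evM_mem q _) (hR y)
  choose W hW1 hW2 hW3 hW4 hW5 hW6 using fun y : Du n × Du n =>
    M.exists_pi_pathM (fun t => M.evM p (y, t)) (fun t => M.evM q (y, t))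
      (M.evM_cont p y) (M.evM_cont q y) (fun t => M.ev1 hp1 _) (fun t => M.ev2 hp2 _)
      (fun t => M.ev1 hq1 _) (fun t => M.ev2 hq2 _) (fun t => M.evM_mem p _)
      (v0 := V (y.1 + y.2)) (v1 := M.osumM (V y.1) (V y.2))
      (by rw [hV1]; exact (M.evM_zero_end p y.1 y.2).symm)
      (by rw [hV2]; exact (M.evM_zero_end q y.1 y.2).symm)
      (by rw [osumM_star, osumM_mul, hV1, hV1]; exact (M.evM_one_end p y.1 y.2).symm)
      (by rw [osumM_star, osumM_mul, hV2, hV2]; exact (M.evM_one_end q y.1 y.2).symm)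
  let v : Matrix (Fin l) (Fin k) (M.alg n) := fun i j =>
    M.build (fun y t => W y t i j) (fun y => hW1 y i j) (fun y t => hW3 y t i j)
      (fun y t => hW4 y t i j)
      (fun y z => by simp only [hW5, add_zero])
      (fun y z => by simp only [hW5, hW6, add_zero]; rfl)
  have hv : ∀ τ : T n, M.evM v τ = W τ.1 τ.2 := fun τ => rfl
  refine ⟨v, M.evM_ext fun τ => ?_, M.evM_ext fun τ => ?_⟩
  · rw [evM_mul, evM_star, hv]
    exact (hW2 τ.1 τ.2).1
  · rw [evM_mul, evM_star, hv]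
    exact (hW2 τ.1 τ.2).2

theorem cls_eq_of_pi {n k l : ℕ} {p : Matrix (Fin k) (Fin k) (M.alg n)}
    {q : Matrix (Fin l) (Fin l) (M.alg n)} (hp1 : p * p = p) (hp2 : pᴴ = p) (hq1 : q * q = q)
    (hq2 : qᴴ = q) {v : Matrix (Fin l) (Fin k) (M.alg n)} (h1 : vᴴ * v = p) (h2 : v * vᴴ = q) :
    M.cls p = M.cls q := by
  funext i
  exact M.rk_Phi_of_pi (M.orth_sf k) (M.orth_sf l) (M.ev1 hp1 _) (M.ev2 hp2 _) (M.ev1 hq1 _)
    (M.ev2 hq2 _) (M.evM_mem p _) (v := M.evM v ((Du.co i, 0), 0))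
    (by rw [← evM_star, ← evM_mul, h1]) (by rw [← evM_star, ← evM_mul, h2])

theorem cls_block {n k l : ℕ} {p : Matrix (Fin k) (Fin k) (M.alg n)}
    {q : Matrix (Fin l) (Fin l) (M.alg n)} (hp1 : p * p = p) (hp2 : pᴴ = p) (hq1 : q * q = q)
    (hq2 : qᴴ = q) :
    M.cls (Matrix.reindex finSumFinEquiv finSumFinEquiv (Matrix.fromBlocks p 0 0 q))
      = M.cls p + M.cls q := by
  funext i
  have e : ∀ τ, M.evM (Matrix.reindex finSumFinEquiv finSumFinEquiv (Matrix.fromBlocks p 0 0 q)) τ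
      = Matrix.reindex finSumFinEquiv finSumFinEquiv
        (Matrix.fromBlocks (M.evM p τ) 0 0 (M.evM q τ)) := by
    intro τ
    ext a b
    simp only [evM, Matrix.reindex_apply, Matrix.submatrix_apply]
    rcases finSumFinEquiv.symm a with a | a <;> rcases finSumFinEquiv.symm b with b | b <;> rfl
  show M.rkM _ = M.rkM _ + M.rkM _
  rw [e]
  exact M.rkM_block (M.ev1 hp1 _) (M.ev2 hp2 _) (M.ev1 hq1 _) (M.ev2 hq2 _) (M.evM_mem p _)
    (M.evM_mem q _)

theorem cls_surj {n : ℕ} (x : Fin n → ℕ) : ∃ p : Matrix (Fin 1) (Fin 1) (M.alg n),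
    p * p = p ∧ pᴴ = p ∧ M.cls p = x := by
  choose P0 hP0K hP0 hP0r using M.exists_rank
  let P : ℕ → B := fun m => M.s 0 * P0 m * star (M.s 0)
  have hP : ∀ m, IsStarProjection (P m) := fun m => (M.conj_proj 0 (hP0 m) (hP0K m)).1
  have hPK : ∀ m, P m ∈ M.K := fun m => (M.conj_proj 0 (hP0 m) (hP0K m)).2.1
  have hPr : ∀ m, M.rk (P m) = m := fun m => (M.conj_proj 0 (hP0 m) (hP0K m)).2.2.trans (hP0r m)
  choose w hw1 hw2 hw3 hw4 hw5 using fun y : Du n × Du n =>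
    M.exists_proj_path (hP ((y.1 + y.2).ev x))
      (M.osum_proj (hP (y.1.ev x)) (hP (y.2.ev x)) (hPK _) (hPK _)).1 (hPK _)
      (M.osum_mem (hPK _) (hPK _))
      (by
        rw [osum, mul_add, M.conj_orth (a := 0) (b := 1) (by norm_num),
          M.conj_orth (a := 0) (b := 2) (by norm_num), add_zero])
      (by rw [(M.osum_proj (hP (y.1.ev x)) (hP (y.2.ev x)) (hPK _) (hPK _)).2, hPr, hPr, hPr,
        Du.ev_add])
  let a : M.alg n := M.build w hw1 (fun y t => (hw2 y t).norm_le) hw3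
    (fun y z => by simp only [hw4, add_zero])
    (fun y z => by simp only [hw4, hw5, add_zero])
  let p : Matrix (Fin 1) (Fin 1) (M.alg n) := fun _ _ => a
  have hv : ∀ (τ : T n) i j, M.evM p τ i j = w τ.1 τ.2 := fun τ _ _ => rfl
  refine ⟨p, M.evM_ext fun τ => ?_, M.evM_ext fun τ => ?_, ?_⟩
  · rw [evM_mul]
    ext i j
    simp only [Matrix.mul_apply, hv, Fin.sum_univ_one]
    exact (hw2 _ _).isIdempotentElem.eq
  · rw [evM_star]
    ext i j
    simp only [Matrix.conjTranspose_apply, hv]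
    exact (hw2 _ _).isSelfAdjoint.star_eq
  · funext i
    show M.rk (Phi _ _ _) = x i
    simp only [Phi, Fin.sum_univ_one, hv, hw4, add_zero, sf]
    exact (M.conj_proj _ (hP _) (hPK _)).2.2.trans (hPr _)

theorem cls_nat {m n : ℕ} (f : (Fin m → ℕ) →+ (Fin n → ℕ)) {k : ℕ}
    {p : Matrix (Fin k) (Fin k) (M.alg m)} (h1 : p * p = p) (h2 : pᴴ = p) :
    M.cls (p.map fun x => M.hom f x) = f (M.cls p) := by
  funext i
  exact M.R_eq h1 h2 (Du.pull f (Du.co i))

end Model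

theorem main :
  ∃ (A : ℕ → Type) (_ : ∀ n, NonUnitalCStarAlgebra (A n))
    (F : ∀ m n : ℕ, ((Fin m → ℕ) →+ (Fin n → ℕ)) → (A m →⋆ₙₐ[ℂ] A n))
    (φ : ∀ n k : ℕ, Matrix (Fin k) (Fin k) (A n) → (Fin n → ℕ)),
    (∀ n : ℕ, F n n (AddMonoidHom.id (Fin n → ℕ)) = NonUnitalStarAlgHom.id ℂ (A n)) ∧
    (∀ (m n l : ℕ) (f : (Fin m → ℕ) →+ (Fin n → ℕ)) (g : (Fin n → ℕ) →+ (Fin l → ℕ)),
      F m l (g.comp f) = (F n l g).comp (F m n f)) ∧
    (∀ (n k l : ℕ) (p : Matrix (Fin k) (Fin k) (A n)) (q : Matrix (Fin l) (Fin l) (A n)),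
      p * p = p → p.conjTranspose = p → q * q = q → q.conjTranspose = q →
      ((φ n k p = φ n l q ↔
          ∃ v : Matrix (Fin l) (Fin k) (A n), v.conjTranspose * v = p ∧ v * v.conjTranspose = q) ∧
        φ n (k + l) (Matrix.reindex finSumFinEquiv finSumFinEquiv (Matrix.fromBlocks p 0 0 q))
          = φ n k p + φ n l q)) ∧
    (∀ (n : ℕ) (x : Fin n → ℕ), ∃ (k : ℕ) (p : Matrix (Fin k) (Fin k) (A n)),
      p * p = p ∧ p.conjTranspose = p ∧ φ n k p = x) ∧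
    (∀ (m n : ℕ) (f : (Fin m → ℕ) →+ (Fin n → ℕ)) (k : ℕ) (p : Matrix (Fin k) (Fin k) (A m)),
      p * p = p → p.conjTranspose = p →
      φ n k (p.map (fun x => F m n f x)) = f (φ m k p)) := by
  obtain ⟨M⟩ := exists_model
  refine ⟨fun n => M.alg n, fun n => inferInstance, fun m n f => M.hom f, fun n k p => M.cls p,
    fun n => rfl, fun m n l f g => rfl, fun n k l p q hp1 hp2 hq1 hq2 =>
      ⟨⟨M.exists_pi_alg hp1 hp2 hq1 hq2, ?_⟩, M.cls_block hp1 hp2 hq1 hq2⟩,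
    fun n x => ⟨1, M.cls_surj x⟩, fun m n f k p h1 h2 => M.cls_nat f h1 h2⟩
  rintro ⟨v, h1, h2⟩
  exact M.cls_eq_of_pi hp1 hp2 hq1 hq2 h1 h2

end Pool.Agent.H866Z.SM
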